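import Mathlib
import Pool.Agent.Helper67.Fin.All

/-!
# MP_cd9119_pr: almost equivariant maps

`Courteous`, `Liouville`: `Pool.Agent.Helper67.Cour`.  `RecPt` (recurrent point), `FinCap` (finite
capacity): `Pool.Agent.Helper67.Fin`.
-/

set_option autoImplicit false

namespace Pool.Agent.Results.MP_cd9119_pr.AlmostEquivariant

open Pool.Agent.Helper67.Cour Pool.Agent.Helper67.Fin

/-- Let `Φ` be an almost equivariant map of `G`-sets (for every `g` the points `x` with
`Φ (g • x) ≠ g • Φ x` are finitely many) and `x₀` a point which is not recurrent. If some courteous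
measure on `G` is Liouville, then `Φ` coincides on the orbit of `x₀`, up to a set of finite
capacity, with an equivariant map. -/
theorem result (G X Y : Type) [Group G] [MulAction G X] [MulAction G Y] (Φ : X → Y)
    (hΦ : ∀ g : G, {x | Φ (g • x) ≠ g • Φ x}.Finite) (x₀ : X) (hx₀ : ¬ RecPt G x₀)
    (hL : ∃ μ : G → ℝ, Courteous μ ∧ Liouville μ) :
    ∃ y₀ : Y, MulAction.stabilizer G x₀ ≤ MulAction.stabilizer G y₀ ∧
      FinCap G {x | ∃ g : G, g • x₀ = x ∧ Φ x ≠ g • y₀} := by
  obtain ⟨μ, hμ, hL⟩ := hL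
  exact ae_fincap dQK dGRE dTRP dGRQ dDFW dCPF Φ hμ hΦ hx₀ hL

end Pool.Agent.Results.MP_cd9119_pr.AlmostEquivariant
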