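import Mathlib
import Pool.Agent.Helper86.SC.All

set_option autoImplicit false

namespace Pool.Agent.Results.MP_cd9119_pr.ConfinedElements

open Pool.Agent.Helper67.Cour Pool.Agent.Helper86.ML Pool.Agent.Helper86.SC

/-- The element `g` acts trivially on the bounded harmonic functions of every courteous measure. -/
def Triv {G : Type} [Group G] (g : G) : Prop :=
  ∀ μ : G → ℝ, Courteous μ → ∀ f : G → ℂ, Bdd f → Harm μ f → ∀ x, f (g * x) = f x

/-- The element `g` is confined: its conjugacy class is recurrent, or it lies in a normal subgroup `M`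
with critical confinement, or for some courteous measure `ν` minus the logarithm of the return
probability, or the entropy, or the mean displacement after `n` steps is at most `C √n` for infinitely
many `n`, or is `o(√(n log log n))`. -/
def Conf {G : Type} [Group G] (g : G) : Prop :=
  RecClass g ∨
  (∃ (S : Finset G) (M : Subgroup G) (_ : M.Normal),
    Subgroup.closure (S : Set G) = ⊤ ∧ CritN S M ∧ g ∈ M) ∨
  ∃ (S : Finset G) (ν : G → ℝ), Subgroup.closure (S : Set G) = ⊤ ∧ Courteous ν ∧
    (Slow (fun n => -Real.log (pw ν (2 * n) 1)) ∨ Slow (fun n => Ent (pw ν n)) ∨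
      Slow fun n => ∑' x, pw ν n x * (wlen S x : ℝ))

theorem Conf.triv {G : Type} [Group G] {g : G} (hg : Conf g) : Triv g := by
  intro μ hμ f hb hf x
  rcases hg with hg | ⟨S, M, hM, hS, hc, hgM⟩ | ⟨S, ν, hS, hν, h⟩
  · exact rec_trivial hμ hg hb hf x
  · exact acts_trivially S hS M μ hμ (Or.inl hc) μ hμ hgM f hb hf x
  · exact acts_trivially S hS ⊤ ν hν (Or.inr h) μ hμ (Subgroup.mem_top g) f hb hf x

/-- (1) Let `N` be a normal subgroup of the finitely generated group `G` which acts trivially on the
bounded harmonic functions of all courteous measures.  Then so does every element which is confined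
in `G` or whose image in `G ⧸ N` is confined, a courteous measure is Liouville if and only if its image in `G ⧸ N` is, and the
Liouville property is independent of the courteous measure for `G` if and only if it is for `G ⧸ N`.
(2) The whole problem is equivalent to the problem for groups without confined elements other than
`1` which act faithfully on the bounded harmonic functions of one of the two measures. -/
theorem result :
    (∀ (G : Type) [Group G] [Group.FG G] (N : Subgroup G) [N.Normal], (∀ g ∈ N, Triv g) →
      (∀ g : G, Conf g ∨ Conf (g : G ⧸ N) → Triv g) ∧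
      (∀ μ : G → ℝ, Courteous μ → (Liouville μ ↔ Liouville (quot N μ))) ∧
      (Stable G ↔ Stable (G ⧸ N))) ∧
    ((∀ (G : Type) [Group G] [Group.FG G], Stable G) ↔
      ∀ (G : Type) [Group G] [Group.FG G] (μ ν : G → ℝ), Courteous μ → Courteous ν →
        (∀ g : G, Conf g → g = 1) →
        (∀ g : G, (∀ f : G → ℂ, Bdd f → Harm ν f → ∀ x, f (g * x) = f x) → g = 1) →
        Liouville μ → Liouville ν) := by
  refine ⟨fun G _ _ N _ hN => ⟨fun g hg μ hμ f hb hf x => ?_, fun μ hμ => ?_, ?_⟩, ?_⟩
  · rcases hg with hg | hg
    · exact hg.triv μ hμ f hb hf x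
    obtain ⟨F, rfl⟩ := exists_descend N fun h hh => hN h hh μ hμ f hb hf
    have hb' := (bdd_comp N).1 hb
    have := hg.triv (quot N μ) (quot_courteous N hμ) F hb' ((harm_quot N hμ hb').1 hf) (x : G ⧸ N)
    simpa using this
  · exact liouville_quot N hμ fun g hg => hN g hg μ hμ
  · exact stable_of_ker N fun μ hμ g hg => hN g hg μ hμ
  · constructor
    · intro h G _ _ μ ν hμ hν _ _ hL
      exact (h G μ ν hμ hν).1 hL
    · intro h G _ _
      by_contra hcon
      obtain ⟨N, hN, μ, ν, hμ, hν, hL, hnL, hf, _⟩ := exists_faithful hcon
      exact hnL (h (G ⧸ N) μ ν hμ hν (fun g hg => hf g fun f hb hF => hg.triv ν hν f hb hF) hf hL)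

end Pool.Agent.Results.MP_cd9119_pr.ConfinedElements
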