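import Mathlib
import Pool.Agent.Helper88.AN.Lin

set_option autoImplicit false

namespace Pool.Agent.Results.MP_cd9119_pr.NilpotentCommutator

open Pool.Agent.Helper67.Cour

/-- The monomials in elements of the group. -/
def mono {G : Type} [Group G] {k : ℕ} (x : Fin k → G) (n : Fin k → ℤ) : G :=
  (List.ofFn fun i => x i ^ n i).prod

/-- The action of an integral polynomial `P` in `k` variables on an element `a` of the commutator
subgroup: the product over the exponents `m` of the elements `(x^m a x^(-m))^c`, `c` the coefficient
of `P` at `m`. -/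
noncomputable def act {G : Type} [Group G] {k : ℕ} (x : Fin k → G) (P : MvPolynomial (Fin k) ℤ)
    (a : G) : G :=
  (P.support.toList.map fun m =>
    (mono x (fun i => (m i : ℤ)) * a * (mono x fun i => (m i : ℤ))⁻¹) ^
      MvPolynomial.coeff m P).prod

/-- Some element `a` of the commutator subgroup generates a free module over `ℤ[X_1, X_2]` (the
variables act by conjugation with two elements of the group), or it has order `p` and generates a free
module over `F_p[X_1, X_2, X_3]`. -/
def Large (G : Type) [Group G] : Prop :=
  ∃ a ∈ commutator G,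
    (∃ x : Fin 2 → G, ∀ P : MvPolynomial (Fin 2) ℤ, act x P a = 1 → P = 0) ∨
    ∃ p : ℕ, p.Prime ∧ a ^ p = 1 ∧ ∃ x : Fin 3 → G, ∀ P : MvPolynomial (Fin 3) ℤ,
      act x P a = 1 → (p : MvPolynomial (Fin 3) ℤ) ∣ P

/-- The split extension `B ⋊ Γ`, where `B` is the normal closure of `b` in `G` and `Γ` the group of
the automorphisms of `B` induced by conjugation with the elements of `G`. -/
abbrev Split {G : Type} [Group G] (b : G) : Type :=
  (Subgroup.normalClosure {b} : Subgroup G)
    ⋊[(MulAut.conjNormal (H := Subgroup.normalClosure {b}) :
        G →* MulAut (Subgroup.normalClosure {b} : Subgroup G)).range.subtype]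
    (MulAut.conjNormal (H := Subgroup.normalClosure {b}) :
        G →* MulAut (Subgroup.normalClosure {b} : Subgroup G)).range

/-- Some quotient `Q` of `G` has an element `b` of its commutator subgroup which commutes with the
commutator subgroup, such that the metabelian group `Split b` is large modulo its recurrent
hypercentre. -/
def Big (G : Type) [Group G] : Prop :=
  ∃ (N : Subgroup G) (_ : N.Normal) (b : G ⧸ N), b ∈ commutator (G ⧸ N) ∧
    (∀ c ∈ commutator (G ⧸ N), b * c = c * b) ∧ Large (Split b ⧸ recHyper (Split b))

/-- For every proper normal subgroup `N` of `G` with no nontrivial recurrent classes in `G ⧸ N` there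
are normal subgroups `M1`, `M2` with intersection inside `N` such that the Liouville property does not
depend on the measure for `G ⧸ M1` and for `G ⧸ M2`, or a normal subgroup `M` inside `N` and an element
`b` outside `N` such that it does not depend on the measure for `Split b`, formed in `G ⧸ M`. -/
def Reducible (G : Type) [Group G] : Prop :=
  ∀ (N : Subgroup G) [N.Normal], N ≠ ⊤ → (∀ q : G ⧸ N, RecClass q → q = 1) →
    (∃ (M1 M2 : Subgroup G) (_ : M1.Normal) (_ : M2.Normal), M1 ⊓ M2 ≤ N ∧
      Stable (G ⧸ M1) ∧ Stable (G ⧸ M2)) ∨
    ∃ (M : Subgroup G) (_ : M.Normal) (b : G), M ≤ N ∧ b ∉ N ∧ Stable (Split (b : G ⧸ M))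

/-- (1) For a finitely generated metabelian group the Liouville property of a courteous measure is
equivalent to an algebraic condition on the group.  (2) The same for a finitely generated group with a
nilpotent commutator subgroup.  (3) The Liouville property does not depend on the courteous measure
if the group has a subgroup `H` of finite index and a quotient `H ⧸ N`, `N` contained in the recurrent
hypercentre of `H`, which has a nilpotent commutator subgroup or is a solvable linear group.  (4) It
does not depend on the measure for reducible groups. -/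
theorem result :
    (∀ (G : Type) [Group G] [Group.FG G], (∀ a ∈ commutator G, ∀ b ∈ commutator G, a * b = b * a) →
      ∀ μ : G → ℝ, Courteous μ → (Liouville μ ↔ ¬ Large (G ⧸ recHyper G))) ∧
    (∀ (G : Type) [Group G] [Group.FG G], Group.IsNilpotent (commutator G) →
      ∀ μ : G → ℝ, Courteous μ → (Liouville μ ↔ ¬ Big G)) ∧
    (∀ (G : Type) [Group G] (H : Subgroup G) [H.FiniteIndex] (N : Subgroup H) [N.Normal],
      N ≤ recHyper H → (Group.IsNilpotent (commutator (H ⧸ N)) ∨ (Group.IsSolvable (H ⧸ N) ∧
        ∃ (K : Type) (_ : Field K) (n : ℕ) (φ : H ⧸ N →* Matrix.GeneralLinearGroup (Fin n) K),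
          Function.Injective φ)) → Stable G) ∧
    (∀ (G : Type) [Group G], Reducible G → Stable G) :=
  ⟨fun G _ _ hG μ hμ => Pool.Agent.Helper88.AN.cMet G hG μ hμ,
    fun _ _ _ hG _ hμ => Pool.Agent.Helper88.AN.cKit.crit Pool.Agent.Helper88.AN.cMet hG hμ,
    fun G _ H _ N _ hNr h => Pool.Agent.Helper88.AN.stable_main G H N hNr h,
    fun _ _ h => Pool.Agent.Helper88.AN.cKit.red h⟩

end Pool.Agent.Results.MP_cd9119_pr.NilpotentCommutator
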