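import Mathlib
import Pool.Agent.Helper67.Fin.All

/-!
# MP_cd9119_pr: permutational wreath products

`Courteous`, `Liouville`, `Stable`: `Pool.Agent.Helper67.Cour`.  `Wr A X G` (restricted wreath product
over the `G`-set `X`), `Wr.toG`, `RecPt` (recurrent point), `hm` (first return law), `im` (image of
a measure), `lampM`: `Pool.Agent.Helper67.Fin`.
-/

set_option autoImplicit false

namespace Pool.Agent.Results.MP_cd9119_pr.WreathProducts

open Pool.Agent.Helper67.Cour Pool.Agent.Helper67.Fin

/-- Courteous measures on the restricted wreath product of `A` and `G` over a `G`-set `X`. If `A`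
is not trivial and `X` has a transient point no courteous measure is Liouville. If all points of
`X` are recurrent, the image in `G` and the laws of the lamps at the first returns of the walk to the
stabilizers are courteous, and the walk is Liouville if and only if they all are. If the
Liouville property is the same for all courteous measures on `A` and on `G` it is so on the
wreath product. -/
theorem result (A X G : Type) [Group A] [Group G] [MulAction G X] :
    (∀ μ : Wr A X G → ℝ, Courteous μ →
      (∀ (a : A) (x : X), a ≠ 1 → ¬ RecPt G x → ¬ Liouville μ) ∧
      ((∀ x : X, RecPt G x) →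
        Courteous (im (Wr.toG A X G) μ) ∧ (∀ x : X, Courteous (lampM μ x)) ∧
        (Liouville μ ↔
          Liouville (im (Wr.toG A X G) μ) ∧ ∀ x : X, Liouville (lampM μ x)))) ∧
    (Stable A → Stable G → Stable (Wr A X G)) := by
  refine ⟨fun μ hμ => ⟨fun a x ha hx => transient_case dAE dTRP hμ ha hx, fun hX => ?_⟩,
    stable_wr dBase⟩
  obtain ⟨h1, h2⟩ := criterion dBase hμ hX
  exact ⟨(im_toG dISO hμ).1, h1, h2⟩

end Pool.Agent.Results.MP_cd9119_pr.WreathProducts
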